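import Pool.Agent.H80.SR2

theorem Pool.Agent.Results.MP_7b644b_an.Counterexample.result :
    ∃ (n : ℕ) (A : Matrix (Fin n) (Fin n) ℝ) (E : Fin n → ℝ), 1 ≤ n ∧
      (∀ i j, 0 ≤ A i j) ∧ (∀ i, ∑ j, A i j = 1) ∧ (∀ j, 0 ≤ E j) ∧ (∃ i, 3 ≤ E i) ∧
      ∀ μ ∈ spectrum ℂ ((A - Matrix.diagonal E).map (algebraMap ℝ ℂ)), ‖μ‖ < 1 :=
  Pool.Agent.H80.SR.main
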